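import Pool.Agent.N71.PS.DStubs
import Pool.Agent.N702.PS.CC8

/-!
# Boundedly many small f are bad, uniformly in the modulus
-/

set_option autoImplicit false

namespace Pool.Agent.N71.PS.CC8D

open Finset Filter Pool.Agent.N71.PS
open scoped Classical Topology ComplexConjugate

variable [PSet]

theorem D_CC8_true (hSW : S_SW) (hNB : P_NB) : D_CC8 := by
  obtain ⟨δ, hδ, hδ1, y1, hy1⟩ := hNB
  refine ⟨⌈9 / δ⌉₊, ?_⟩
  intro M hM
  obtain ⟨y2, hy2⟩ := hSW 7 (δ / 8) (by positivity)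
  obtain ⟨y3, hy3⟩ := Pool.Agent.H38R2.CG.T_NB.2
  have e1 : ∀ᶠ y : ℕ in Filter.atTop, (M : ℝ) + 20 ≤ Real.log y :=
    (Real.tendsto_log_atTop.comp tendsto_natCast_atTop_atTop).eventually_ge_atTop _
  have e2 : ∀ᶠ y : ℕ in Filter.atTop, (Real.log y) ^ 7 < (y : ℝ) := by
    have h := (Real.isLittleO_pow_log_id_atTop (n := 7)).bound (show (0 : ℝ) < 1 / 2 by norm_num)
    have h' := tendsto_natCast_atTop_atTop (R := ℝ) |>.eventually h
    filter_upwards [h', Filter.eventually_ge_atTop 1] with y hy hy1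
    have hy0 : (0 : ℝ) < y := by exact_mod_cast hy1
    simp only [id, Real.norm_eq_abs, abs_of_pos hy0] at hy
    have := le_abs_self ((Real.log y) ^ 7)
    linarith
  obtain ⟨y4, hy4⟩ := Filter.eventually_atTop.mp (e1.and e2)
  refine ⟨max (max y1 y2) (max (max y3 y4) 1), ?_⟩
  intro y hy
  have hyy1 : y1 ≤ y := ((le_max_left _ _).trans (le_max_left _ _)).trans hy
  have hyy2 : y2 ≤ y := ((le_max_right _ _).trans (le_max_left _ _)).trans hy
  have hyy3 : y3 ≤ y := (((le_max_left _ _).trans (le_max_left _ _)).trans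
    (le_max_right _ _)).trans hy
  have hyy4 : y4 ≤ y := (((le_max_right _ _).trans (le_max_left _ _)).trans
    (le_max_right _ _)).trans hy
  have hyy5 : 1 ≤ y := ((le_max_right _ _).trans (le_max_right _ _)).trans hy
  obtain ⟨hL, hLy⟩ := hy4 y hyy4
  have hy0 : (0 : ℝ) < y := by exact_mod_cast hyy5
  set A := (Finset.Icc 1 ⌊(Real.log y) ^ 3⌋₊).filter
    (fun f => Squarefree f ∧ f.Coprime (2 * M) ∧ BadF (1 / 2) M y f) with hA
  have hM0 : (0 : ℝ) ≤ M := by positivity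
  have hL20 : 20 ≤ Real.log y := by linarith
  have hL0 : 0 < Real.log y := by linarith
  have hML : (M : ℝ) ≤ Real.log y := by linarith
  have hA1 : ∀ f ∈ A, 1 ≤ f ∧ (f : ℝ) ≤ (Real.log y) ^ 3 ∧ Squarefree f ∧ f.Coprime (2 * M) ∧
      BadF (1 / 2) M y f := by
    intro f hf
    rw [hA, Finset.mem_filter, Finset.mem_Icc] at hf
    exact ⟨hf.1.1, (Nat.le_floor_iff (by positivity)).mp hf.1.2, hf.2⟩
  have hψ : ∀ f : ℕ, ∃ ψ : DirichletCharacter ℂ M, f ∈ A →
      (1 / 2 : ℝ) * (PP y).card <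
        ‖∑ p ∈ PP y, ψ (p : ZMod M) * ((jacobiSym (p : ℤ) f : ℤ) : ℂ)‖ := by
    intro f
    by_cases hf : f ∈ A
    · obtain ⟨_, _, _, _, ψ, _, h⟩ := hA1 f hf
      exact ⟨ψ, fun _ => h⟩
    · exact ⟨1, fun h => absurd h hf⟩
  choose ψ hψ using hψ
  set Y : ℝ := y / Real.log y with hY
  have hY0 : 0 < Y := by positivity
  obtain ⟨hN1, hN2⟩ := hy1 y hyy1
  obtain ⟨hQ1, hQ2⟩ := hy3 y hyy3
  have hN1' : δ * Y ≤ (PP y).card := by rw [hY, ← mul_div_assoc]; exact hN1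
  have hN2' : ((PP y).card : ℝ) ≤ 11 / 10 * Y := by rw [hY, ← mul_div_assoc]; exact hN2
  have hQ2' : ((Pool.Agent.H38R2.CG.PP y).card : ℝ) ≤ 11 / 10 * Y := by
    rw [hY, ← mul_div_assoc]; exact hQ2
  have hE : 0 ≤ δ / 8 * Y := by positivity
  have hpow3 : (Real.log y) ^ 3 ≤ (y : ℝ) := by
    have : (Real.log y) ^ 3 ≤ (Real.log y) ^ 7 := pow_le_pow_right₀ (by linarith) (by norm_num)
    linarith
  have hb := Pool.Agent.N702.PS.bessel A (PP y) (Pool.Agent.H38R2.CG.PP y) (PP_sub_old y)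
    (fun f p => ψ f (p : ZMod M) * ((jacobiSym (p : ℤ) f : ℤ) : ℂ))
    (1 / 2 * (PP y).card) (PP y).card (δ / 8 * Y) (by positivity) (by positivity)
    hE le_rfl (fun f hf => (hψ f hf).le) ?_ ?_
  · -- conclusion
    set N : ℝ := ((PP y).card : ℝ) with hN
    have hN0 : 0 < N := lt_of_lt_of_le (by positivity) hN1'
    set m : ℝ := (A.card : ℝ) with hm
    have hm0 : 0 ≤ m := by positivity
    rcases hm0.eq_or_lt with h0 | h0
    · have h9 : A.card = 0 := by
        rw [hm] at h0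
        exact_mod_cast h0.symm
      rw [h9]
      exact Nat.zero_le _
    have h1 : (m * (1 / 2 * N)) ^ 2 ≤ N * (m * (11 / 10 * Y) + m ^ 2 * (δ / 8 * Y)) := by
      refine hb.trans ?_
      gcongr
    have h2 : m * N / 4 ≤ 11 / 10 * Y + m * (δ / 8 * Y) := by
      have h3 : (m * N) * (m * N / 4) ≤ (m * N) * (11 / 10 * Y + m * (δ / 8 * Y)) := by
        nlinarith
      exact le_of_mul_le_mul_left h3 (by positivity)
    have h4 : m * (δ * Y) / 4 ≤ 11 / 10 * Y + m * (δ / 8 * Y) := by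
      refine le_trans ?_ h2
      gcongr
    have h5 : m * δ / 8 ≤ 11 / 10 := by
      have h6 : Y * (m * δ / 8) ≤ Y * (11 / 10) := by nlinarith
      exact le_of_mul_le_mul_left h6 hY0
    have h7 : m ≤ 9 / δ := by
      rw [le_div_iff₀ hδ]
      linarith
    have h8 : (A.card : ℝ) ≤ (⌈9 / δ⌉₊ : ℝ) := h7.trans (Nat.le_ceil _)
    exact_mod_cast h8
  · intro f _ p _
    rw [norm_mul]
    apply mul_le_one₀ (DirichletCharacter.norm_le_one _ _) (norm_nonneg _)
    rcases jacobiSym.trichotomy (p : ℤ) f with h | h | h <;> simp [h]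
  · intro f hf g hg hne
    obtain ⟨hf1, hf2, hf3, hf4, _⟩ := hA1 f hf
    obtain ⟨hg1, hg2, hg3, hg4, _⟩ := hA1 g hg
    have hbound : ((M * (f * g) : ℕ) : ℝ) ≤ (Real.log y) ^ 7 := by
      push_cast
      calc (M : ℝ) * (f * g) ≤ Real.log y * ((Real.log y) ^ 3 * (Real.log y) ^ 3) := by
            gcongr
        _ = (Real.log y) ^ 7 := by ring
    have hb1 : M * (f * g) ≤ y := by
      have : ((M * (f * g) : ℕ) : ℝ) ≤ y := hbound.trans hLy.le
      exact_mod_cast this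
    have hb2 : f ≤ y := by exact_mod_cast hf2.trans hpow3
    have hb3 : g ≤ y := by exact_mod_cast hg2.trans hpow3
    obtain ⟨q, χ, hq1, hq2, hprim, hsum⟩   := Pool.Agent.N702.PS.orth M f g y hM hf1 hg1 hf3 hg3 hf4 hg4 hne
      (ψ f) (ψ g) hb1 hb2 hb3
    rw [hsum]
    have hq3 : (q : ℝ) ≤ (Real.log y) ^ 7 := by
      have : (q : ℝ) ≤ ((M * (f * g) : ℕ) : ℝ) := by exact_mod_cast hq2
      linarith
    have := hy2 y hyy2 q hq1 hq3 χ hprim
    rw [hY, ← mul_div_assoc]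
    exact this

end Pool.Agent.N71.PS.CC8D
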